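import Pool.Agent.Q133.SS.Small
import Pool.Agent.Q133.SS.Poly

set_option autoImplicit false

namespace Pool.Agent.Results.MP_993212_an.BakerPairs

open Pool.Agent.Q133.SS Matrix Polynomial

/-- A square matrix over the nonnegative integers, of any finite size. -/
def SqMat := Σ n : ℕ, Matrix (Fin n) (Fin n) ℕ

/-- Elementary equivalence over the nonnegative integers: `A = R S` and `B = S R`. -/
def Elem (X Y : SqMat) : Prop :=
  ∃ R : Matrix (Fin X.1) (Fin Y.1) ℕ, ∃ S : Matrix (Fin Y.1) (Fin X.1) ℕ,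
    X.2 = R * S ∧ Y.2 = S * R

/-- Strong shift equivalence over the nonnegative integers: a finite chain of elementary
equivalences. -/
def SSE (X Y : SqMat) : Prop := Relation.TransGen Elem X Y

/-- A two by two matrix as a square matrix of some size. -/
def two (A : Matrix (Fin 2) (Fin 2) ℕ) : SqMat := ⟨2, A⟩

theorem key4 : SSE (two !![1, 4; 3, 1]) (two !![1, 12; 1, 1]) := by
  have h := sse4
  have e1 : toM 2 2 [[1,4],[3,1]] = !![1, 4; 3, 1] := by decide
  have e2 : toM 2 2 [[1,12],[1,1]] = !![1, 12; 1, 1] := by decide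
  rw [e1, e2] at h
  exact h

theorem key5 : SSE (two !![1, 5; 4, 1]) (two !![1, 20; 1, 1]) := by
  have h := sse5
  have e1 : toM 2 2 [[1,5],[4,1]] = !![1, 5; 4, 1] := by decide
  have e2 : toM 2 2 [[1,20],[1,1]] = !![1, 20; 1, 1] := by decide
  rw [e1, e2] at h
  exact h

theorem key6 : SSE (two !![1, 6; 5, 1]) (two !![1, 30; 1, 1]) := by
  have h := sse6
  have e1 : toM 2 2 [[1,6],[5,1]] = !![1, 6; 5, 1] := by decide
  have e2 : toM 2 2 [[1,30],[1,1]] = !![1, 30; 1, 1] := by decide
  rw [e1, e2] at h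
  exact h

/-- For `k = 4, 5, 6` and for every polynomial `p` over the nonnegative integers with zero
constant term, `p([[1, k], [k - 1, 1]])` and `p([[1, k (k - 1)], [1, 1]])` are strong shift
equivalent over the nonnegative integers. -/
theorem result : ∀ k : ℕ, (k = 4 ∨ k = 5 ∨ k = 6) → ∀ p : ℕ[X], p.coeff 0 = 0 →
    SSE (two (aeval !![1, k; k - 1, 1] p)) (two (aeval !![1, k * (k - 1); 1, 1] p)) := by
  intro k hk p hp
  rcases hk with rfl | rfl | rfl
  · exact Pool.Agent.Q133.SS.SSE.aeval key4 p hp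
  · exact Pool.Agent.Q133.SS.SSE.aeval key5 p hp
  · exact Pool.Agent.Q133.SS.SSE.aeval key6 p hp

end Pool.Agent.Results.MP_993212_an.BakerPairs
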