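import Pool.Agent.Q133.SS.Region

set_option autoImplicit false

namespace Pool.Agent.Results.MP_993212_an.ChainLength

open Matrix

/-- A square matrix over the nonnegative integers, of any finite size. -/
def SqMat := Σ n : ℕ, Matrix (Fin n) (Fin n) ℕ

/-- Elementary equivalence over the nonnegative integers: `X = R S` and `Y = S R`. -/
def Elem (X Y : SqMat) : Prop :=
  ∃ R : Matrix (Fin X.1) (Fin Y.1) ℕ, ∃ S : Matrix (Fin Y.1) (Fin X.1) ℕ,
    X.2 = R * S ∧ Y.2 = S * R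

/-- `Chain L X Y`: `X` and `Y` are joined by a chain of exactly `L` elementary equivalences. -/
inductive Chain : ℕ → SqMat → SqMat → Prop
  | nil (X : SqMat) : Chain 0 X X
  | cons {L : ℕ} {X Y Z : SqMat} : Elem X Y → Chain L Y Z → Chain (L + 1) X Z

/-- `Lag L X Y`: a shift equivalence of lag `L` over the nonnegative integers. -/
def Lag (L : ℕ) (X Y : SqMat) : Prop :=
  ∃ R : Matrix (Fin X.1) (Fin Y.1) ℕ, ∃ S : Matrix (Fin Y.1) (Fin X.1) ℕ,
    X.2 ^ L = R * S ∧ Y.2 ^ L = S * R ∧ X.2 * R = R * Y.2 ∧ S * X.2 = Y.2 * S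

/-- The matrix `[[t, n], [1, t]]`. -/
def PA (t n : ℕ) : SqMat := ⟨2, !![t, n; 1, t]⟩

/-- The matrix `[[t, b], [c, t]]`. -/
def PB (t b c : ℕ) : SqMat := ⟨2, !![t, b; c, t]⟩

theorem lag_of_chain {L : ℕ} {X Y : SqMat} (h : Chain L X Y) : Lag L X Y := by
  induction h with
  | nil X => exact ⟨1, 1, by simp, by simp, by simp, by simp⟩
  | @cons L X Y Z h1 _ ih =>
    obtain ⟨R1, S1, hX, hY⟩ := h1
    obtain ⟨R2, S2, h1, h2, h3, h4⟩ := ih
    have hc : ∀ k : ℕ, R1 * Y.2 ^ k = X.2 ^ k * R1 := by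
      intro k
      induction k with
      | zero => simp
      | succ k ihk =>
        rw [pow_succ, ← Matrix.mul_assoc, ihk, pow_succ, Matrix.mul_assoc, Matrix.mul_assoc]
        congr 1
        rw [hX, hY, Matrix.mul_assoc]
    refine ⟨R1 * R2, S2 * S1, ?_, ?_, ?_, ?_⟩
    · calc X.2 ^ (L + 1) = X.2 ^ L * (R1 * S1) := by rw [pow_succ, ← hX]
        _ = (R1 * Y.2 ^ L) * S1 := by rw [hc, Matrix.mul_assoc]
        _ = R1 * R2 * (S2 * S1) := by rw [h1]; simp only [Matrix.mul_assoc]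
    · have h5 : ∀ k : ℕ, S2 * Y.2 ^ k = Z.2 ^ k * S2 := by
        intro k
        induction k with
        | zero => simp
        | succ k ihk =>
          rw [pow_succ, ← Matrix.mul_assoc, ihk, pow_succ, Matrix.mul_assoc, Matrix.mul_assoc, h4]
      calc Z.2 ^ (L + 1) = Z.2 * (S2 * R2) := by rw [pow_succ', ← h2]
        _ = (Z.2 * S2) * R2 := by rw [Matrix.mul_assoc]
        _ = (S2 * Y.2) * R2 := by rw [← h4]
        _ = S2 * S1 * (R1 * R2) := by
          rw [show Y.2 = S1 * R1 from hY]; simp only [Matrix.mul_assoc]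
    · calc X.2 * (R1 * R2) = R1 * (S1 * R1) * R2 := by rw [hX]; simp only [Matrix.mul_assoc]
        _ = R1 * (Y.2 * R2) := by rw [← hY, Matrix.mul_assoc]
        _ = R1 * R2 * Z.2 := by rw [h3, Matrix.mul_assoc]
    · calc S2 * S1 * X.2 = S2 * (S1 * R1) * S1 := by rw [hX]; simp only [Matrix.mul_assoc]
        _ = (S2 * Y.2) * S1 := by rw [← hY]
        _ = Z.2 * (S2 * S1) := by rw [h4, Matrix.mul_assoc]

/-- First column of the powers. -/
def XY (t n : ℤ) : ℕ → ℤ × ℤ
  | 0 => (1, 0)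
  | L + 1 => (t * (XY t n L).1 + n * (XY t n L).2, (XY t n L).1 + t * (XY t n L).2)

theorem XY_pow (t n : ℕ) (L : ℕ) :
    ((((!![t, n; 1, t] : Matrix (Fin 2) (Fin 2) ℕ) ^ L) 0 0 : ℕ) : ℤ) = (XY t n L).1 ∧
    ((((!![t, n; 1, t] : Matrix (Fin 2) (Fin 2) ℕ) ^ L) 1 0 : ℕ) : ℤ) = (XY t n L).2 := by
  induction L with
  | zero => simp [XY]
  | succ L ih =>
    rw [pow_succ']
    simp only [Matrix.mul_apply, Fin.sum_univ_two, XY]
    rw [← ih.1, ← ih.2]
    constructor <;> simp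

/-- The norm of the powers. -/
theorem XY_norm (t n : ℤ) (L : ℕ) :
    (XY t n L).1 ^ 2 - n * (XY t n L).2 ^ 2 = (t ^ 2 - n) ^ L := by
  induction L with
  | zero => simp [XY]
  | succ L ih =>
    rw [show (t ^ 2 - n) ^ (L + 1) = (t ^ 2 - n) ^ L * (t ^ 2 - n) from pow_succ _ _, ← ih]
    simp only [XY]
    ring

theorem XY_congr (t n l : ℤ) (hl : l ∣ n - t ^ 2) (L : ℕ) :
    l ∣ (XY t n (L + 1)).1 - t * (XY t n (L + 1)).2 ∧
      l ∣ (XY t n (L + 1)).2 - (2 * t) ^ L := by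
  obtain ⟨k, hk⟩ := hl
  induction L with
  | zero => simp [XY]
  | succ L ih =>
    obtain ⟨⟨a, ha⟩, ⟨b, hb⟩⟩ := ih
    constructor
    · rw [XY]
      exact ⟨k * (XY t n (L + 1)).2, by simp only; linear_combination (XY t n (L + 1)).2 * hk⟩
    · rw [XY]
      refine ⟨a + 2 * t * b, ?_⟩
      simp only
      rw [pow_succ]
      linear_combination ha + 2 * t * hb

def T (t b c : ℤ) (p : ℤ × ℤ) : ℤ × ℤ := (t * p.1 + b * p.2, c * p.1 + t * p.2)

theorem descent (t b c l : ℤ) (hl : Prime l) (hn : l = b * c - t ^ 2) (h2 : ¬ l ∣ 2 * t) :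
    ∀ L : ℕ, ∀ w z x y : ℤ, c * w * x + b * z * y = (XY t (b * c) L).1 →
      w * y + z * x = (XY t (b * c) L).2 →
      ∃ j ≤ L, ∃ w0 z0 : ℤ, |c * w0 ^ 2 - b * z0 ^ 2| = 1 ∧ (w, z) = (T t b c)^[j] (w0, z0) := by
  intro L
  induction L with
  | zero =>
    intro w z x y h1 h2'
    refine ⟨0, le_refl 0, w, z, ?_, rfl⟩
    have h3 : (c * w ^ 2 - b * z ^ 2) * (c * x ^ 2 - b * y ^ 2) = 1 := by
      have := XY_norm t (b * c) 0
      rw [← h1, ← h2'] at this
      rw [pow_zero] at this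
      linear_combination this
    exact Int.isUnit_iff_abs_eq.mp (IsUnit.of_mul_eq_one _ h3)
  | succ L ih =>
    intro w z x y h1 h2'
    have h3 : (c * w ^ 2 - b * z ^ 2) * (c * x ^ 2 - b * y ^ 2) = (-l) ^ (L + 1) := by
      have := XY_norm t (b * c) (L + 1)
      rw [← h1, ← h2'] at this
      rw [hn, show -(b * c - t ^ 2) = t ^ 2 - b * c by ring, ← this]
      ring
    by_cases hd : l ∣ c * w ^ 2 - b * z ^ 2
    · -- descend
      have h4 : l ∣ (c * w - t * z) * (c * w + t * z) := by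
        obtain ⟨k, hk⟩ := hd
        exact ⟨c * k + z ^ 2, by linear_combination c * hk - z ^ 2 * hn⟩
      have hlc : ¬ l ∣ c := by
        intro hc
        apply h2
        have : l ∣ t ^ 2 := by
          obtain ⟨k, hk⟩ := hc
          exact ⟨b * k - 1, by linear_combination hn + b * hk⟩
        exact Dvd.dvd.mul_left (hl.dvd_of_dvd_pow this) 2
      have hgood : l ∣ c * w - t * z := by
        rcases hl.dvd_or_dvd h4 with h | h
        · exact h
        · exfalso
          have h5 : l ∣ b * z + t * w := by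
            have : l ∣ c * (b * z + t * w) := by
              obtain ⟨k, hk⟩ := h
              exact ⟨z + t * k, by linear_combination t * hk - z * hn⟩
            rcases hl.dvd_or_dvd this with h' | h'
            · exact absurd h' hlc
            · exact h'
          obtain ⟨⟨a1, ha1⟩, ⟨a2, ha2⟩⟩ := XY_congr t (b * c) l (by rw [hn]) L
          obtain ⟨k1, hk1⟩ := h
          obtain ⟨k2, hk2⟩ := h5
          have h6 : l ∣ 2 * t * (2 * t) ^ L := by
            rw [← h1, ← h2'] at ha1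
            rw [← h2'] at ha2
            refine ⟨k1 * x + k2 * y - a1 - 2 * t * a2, ?_⟩
            linear_combination x * hk1 + y * hk2 - ha1 - 2 * t * ha2
          rw [← pow_succ'] at h6
          exact h2 (hl.dvd_of_dvd_pow h6)
      have hgood2 : l ∣ b * z - t * w := by
        have : l ∣ c * (b * z - t * w) := by
          obtain ⟨k, hk⟩ := hgood
          exact ⟨z - t * k, by linear_combination -t * hk - z * hn⟩
        rcases hl.dvd_or_dvd this with h' | h'
        · exact absurd h' hlc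
        · exact h'
      obtain ⟨z1, hz1⟩ := hgood
      obtain ⟨w1, hw1⟩ := hgood2
      have hl0 : l ≠ 0 := hl.ne_zero
      have hw : w = t * w1 + b * z1 := by
        apply mul_left_cancel₀ hl0
        linear_combination w * hn + t * hw1 + b * hz1
      have hz : z = c * w1 + t * z1 := by
        apply mul_left_cancel₀ hl0
        linear_combination z * hn + c * hw1 + t * hz1
      have hX : c * w1 * x + b * z1 * y = (XY t (b * c) L).1 := by
        have e1 : t * (XY t (b * c) L).1 + b * c * (XY t (b * c) L).2 =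
            t * (c * w1 * x + b * z1 * y) + b * c * (w1 * y + z1 * x) := by
          have := h1
          rw [XY] at this
          simp only at this
          rw [← this, hw, hz]; ring
        have e2 : (XY t (b * c) L).1 + t * (XY t (b * c) L).2 =
            (c * w1 * x + b * z1 * y) + t * (w1 * y + z1 * x) := by
          have := h2'
          rw [XY] at this
          simp only at this
          rw [← this, hw, hz]; ring
        apply mul_left_cancel₀ hl0
        linear_combination (c * w1 * x + b * z1 * y - (XY t (b * c) L).1) * hn + t * e1 - b * c * e2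
      have hY : w1 * y + z1 * x = (XY t (b * c) L).2 := by
        have e1 : t * (XY t (b * c) L).1 + b * c * (XY t (b * c) L).2 =
            t * (c * w1 * x + b * z1 * y) + b * c * (w1 * y + z1 * x) := by
          have := h1
          rw [XY] at this
          simp only at this
          rw [← this, hw, hz]; ring
        have e2 : (XY t (b * c) L).1 + t * (XY t (b * c) L).2 =
            (c * w1 * x + b * z1 * y) + t * (w1 * y + z1 * x) := by
          have := h2'
          rw [XY] at this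
          simp only at this
          rw [← this, hw, hz]; ring
        apply mul_left_cancel₀ hl0
        linear_combination (w1 * y + z1 * x - (XY t (b * c) L).2) * hn - e1 + t * e2
      obtain ⟨j, hj, w0, z0, h01, h02⟩ := ih w1 z1 x y hX hY
      refine ⟨j + 1, by omega, w0, z0, h01, ?_⟩
      rw [Function.iterate_succ', Function.comp_apply, ← h02, T]
      simp only
      rw [← hw, ← hz]
    · refine ⟨0, Nat.zero_le _, w, z, ?_, rfl⟩
      have hcop : IsCoprime (c * w ^ 2 - b * z ^ 2) ((-l) ^ (L + 1)) := by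
        apply IsCoprime.pow_right
        apply IsCoprime.neg_right
        exact ((Prime.coprime_iff_not_dvd hl).mpr hd).symm
      have h5 : IsUnit (c * w ^ 2 - b * z ^ 2) :=
        hcop.isUnit_of_dvd' (dvd_refl _) ⟨_, h3.symm⟩
      exact Int.isUnit_iff_abs_eq.mp h5


theorem gp_iter (t b c : ℤ) (s r : ℝ) (hs : s ^ 2 = c) (hr : r ^ 2 = b) (j : ℕ) (p : ℤ × ℤ) :
    s * ((T t b c)^[j] p).1 + r * ((T t b c)^[j] p).2 = (t + s * r) ^ j * (s * p.1 + r * p.2) ∧
    s * ((T t b c)^[j] p).1 - r * ((T t b c)^[j] p).2 = (t - s * r) ^ j * (s * p.1 - r * p.2) := by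
  induction j with
  | zero => simp
  | succ j ih =>
    rw [Function.iterate_succ', Function.comp_apply, T]
    generalize ((T t b c)^[j] p) = q at ih
    obtain ⟨h1, h2⟩ := ih
    simp only
    push_cast
    rw [← hs, ← hr]
    constructor
    · calc s * (t * (q.1 : ℝ) + r ^ 2 * q.2) + r * (s ^ 2 * q.1 + t * q.2)
          = (t + s * r) * (s * q.1 + r * q.2) := by ring
        _ = _ := by rw [h1, pow_succ']; ring
    · calc s * (t * (q.1 : ℝ) + r ^ 2 * q.2) - r * (s ^ 2 * q.1 + t * q.2)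
          = (t - s * r) * (s * q.1 - r * q.2) := by ring
        _ = _ := by rw [h2, pow_succ']; ring

theorem XY_real (t n : ℤ) (q : ℝ) (hq : q ^ 2 = n) (L : ℕ) :
    ((XY t n L).1 : ℝ) + q * (XY t n L).2 = (t + q) ^ L ∧
    ((XY t n L).1 : ℝ) - q * (XY t n L).2 = (t - q) ^ L := by
  induction L with
  | zero => simp [XY]
  | succ L ih =>
    obtain ⟨h1, h2⟩ := ih
    rw [XY]
    simp only
    push_cast
    rw [← hq]
    constructor
    · rw [pow_succ' _ L, ← h1]; ring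
    · rw [pow_succ' _ L, ← h2]; ring

/-- The core inequality over the reals. -/
theorem core (u v P M g h dp dm : ℝ) (j L : ℕ) (hj : j ≤ L) (hu : 0 < u) (huv : u ≤ v)
    (hP : 0 ≤ P) (hM : 0 ≤ M) (hPM : P * M = 1)
    (hg : g = v ^ j * P) (hh : h = u ^ j * M) (hhg : h ≤ g)
    (hdp : g * dp = v ^ L) (hdm : h * dm = u ^ L) (hd : dm ≤ dp) :
    (max P M) ^ 2 * u ^ L ≤ v ^ L := by
  have hv : 0 < v := lt_of_lt_of_le hu huv
  have hP' : 0 < P := by
    rcases lt_or_eq_of_le hP with h | h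
    · exact h
    · rw [← h] at hPM; simp at hPM
  have hM' : 0 < M := by
    rcases lt_or_eq_of_le hM with h | h
    · exact h
    · rw [← h] at hPM; simp at hPM
  obtain ⟨k, rfl⟩ := Nat.exists_eq_add_of_le hj
  have e1 : dp = v ^ k * M := by
    have : v ^ j * P * dp = v ^ j * P * (v ^ k * M) := by
      rw [← hg, hdp, hg]
      calc v ^ (j + k) = v ^ j * v ^ k * (P * M) := by rw [hPM, pow_add]; ring
        _ = _ := by ring
    exact mul_left_cancel₀ (by positivity) this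
  have e2 : dm = u ^ k * P := by
    have : u ^ j * M * dm = u ^ j * M * (u ^ k * P) := by
      rw [← hh, hdm, hh]
      calc u ^ (j + k) = u ^ j * u ^ k * (P * M) := by rw [hPM, pow_add]; ring
        _ = _ := by ring
    exact mul_left_cancel₀ (by positivity) this
  have h1 : u ^ j * M ≤ v ^ j * P := by rw [← hg, ← hh]; exact hhg
  have h2 : u ^ k * P ≤ v ^ k * M := by rw [← e1, ← e2]; exact hd
  have hk : u ^ k ≤ v ^ k := pow_le_pow_left₀ hu.le huv k
  have hj' : u ^ j ≤ v ^ j := pow_le_pow_left₀ hu.le huv j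
  rcases le_total P M with h | h
  · rw [max_eq_right h]
    calc M ^ 2 * u ^ (j + k) = (u ^ j * M) * u ^ k * M := by rw [pow_add]; ring
      _ ≤ (v ^ j * P) * v ^ k * M := by gcongr
      _ = v ^ (j + k) * (P * M) := by rw [pow_add]; ring
      _ = v ^ (j + k) := by rw [hPM, mul_one]
  · rw [max_eq_left h]
    calc P ^ 2 * u ^ (j + k) = (u ^ k * P) * u ^ j * P := by rw [pow_add]; ring
      _ ≤ (v ^ k * M) * v ^ j * P := by gcongr
      _ = v ^ (j + k) * (P * M) := by rw [pow_add]; ring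
      _ = v ^ (j + k) := by rw [hPM, mul_one]

theorem max_abs (x y : ℝ) : max |x + y| |x - y| = |x| + |y| := by
  rcases le_total 0 x with hx | hx <;> rcases le_total 0 y with hy | hy
  · rw [abs_of_nonneg hx, abs_of_nonneg hy, abs_of_nonneg (by linarith : 0 ≤ x + y)]
    apply max_eq_left
    rw [abs_le]; constructor <;> linarith
  · rw [abs_of_nonneg hx, abs_of_nonpos hy, abs_of_nonneg (by linarith : 0 ≤ x - y)]
    rw [← sub_eq_add_neg]
    apply max_eq_right
    rw [abs_le]; constructor <;> linarith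
  · rw [abs_of_nonpos hx, abs_of_nonneg hy, abs_of_nonpos (by linarith : x - y ≤ 0)]
    rw [show -(x - y) = -x + y by ring]
    apply max_eq_right
    rw [abs_le]; constructor <;> linarith
  · rw [abs_of_nonpos hx, abs_of_nonpos hy, abs_of_nonpos (by linarith : x + y ≤ 0)]
    rw [show -(x + y) = -x + -y by ring]
    apply max_eq_left
    rw [abs_le]; constructor <;> linarith

/-- Lower bound for the lag. -/
theorem lag_bound (t b c l : ℕ) (hb : 1 ≤ b) (hc : 1 ≤ c) (hl : l.Prime) (hn : l + t ^ 2 = b * c)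
    (h2 : ¬ l ∣ 2 * t) (L : ℕ) (h : Lag L (PA t (b * c)) (PB t b c)) :
    ∃ w z : ℤ, |(c : ℤ) * w ^ 2 - b * z ^ 2| = 1 ∧
      (√(c : ℝ) * |(w : ℝ)| + √(b : ℝ) * |(z : ℝ)|) ^ 2 * (√((b * c : ℕ) : ℝ) - t) ^ L ≤
        (√((b * c : ℕ) : ℝ) + t) ^ L := by
  obtain ⟨R, S, hRS, -, hAR, -⟩ := h
  change Matrix (Fin 2) (Fin 2) ℕ at R
  change Matrix (Fin 2) (Fin 2) ℕ at S
  change (!![t, b * c; 1, t] : Matrix (Fin 2) (Fin 2) ℕ) ^ L = R * S at hRS
  change (!![t, b * c; 1, t] : Matrix (Fin 2) (Fin 2) ℕ) * R = R * !![t, b; c, t] at hAR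
  have r00 : R 0 0 = c * R 1 1 := by
    have := congrFun (congrFun hAR 1) 0
    simp [Matrix.mul_apply, Fin.sum_univ_two] at this
    linarith
  have r01 : R 0 1 = b * R 1 0 := by
    have := congrFun (congrFun hAR 1) 1
    simp [Matrix.mul_apply, Fin.sum_univ_two] at this
    linarith
  have hXY := XY_pow t (b * c) L
  have e0 := congrFun (congrFun hRS 0) 0
  have e1 := congrFun (congrFun hRS 1) 0
  simp only [Matrix.mul_apply, Fin.sum_univ_two] at e0 e1
  rw [e0, e1, r00, r01] at hXY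
  obtain ⟨hX, hY⟩ := hXY
  push_cast at hX hY
  set w : ℤ := (R 1 1 : ℤ) with hw
  set z : ℤ := (R 1 0 : ℤ) with hz
  set x : ℤ := (S 0 0 : ℤ) with hx
  set y : ℤ := (S 1 0 : ℤ) with hy
  have hw0 : 0 ≤ w := by positivity
  have hz0 : 0 ≤ z := by positivity
  have hx0 : 0 ≤ x := by positivity
  have hy0 : 0 ≤ y := by positivity
  have hX' : (c : ℤ) * w * x + b * z * y = (XY t ((b : ℤ) * c) L).1 := hX
  have hY' : w * y + z * x = (XY t ((b : ℤ) * c) L).2 := by rw [← hY]; ring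
  have hlZ : Prime (l : ℤ) := Nat.prime_iff_prime_int.mp hl
  have hnZ : (l : ℤ) = b * c - t ^ 2 := by
    have : ((l + t ^ 2 : ℕ) : ℤ) = ((b * c : ℕ) : ℤ) := by rw [hn]
    push_cast at this
    linarith
  have h2Z : ¬ (l : ℤ) ∣ 2 * t := by
    intro h
    exact h2 (by exact_mod_cast h)
  obtain ⟨j, hj, w0, z0, h01, h02⟩ := descent t b c l hlZ hnZ h2Z L w z x y hX' hY'
  refine ⟨w0, z0, h01, ?_⟩
  set s : ℝ := √(c : ℝ) with hs
  set r : ℝ := √(b : ℝ) with hr
  have hs2 : s ^ 2 = ((c : ℤ) : ℝ) := by rw [hs, Real.sq_sqrt (by positivity)]; simp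
  have hr2 : r ^ 2 = ((b : ℤ) : ℝ) := by rw [hr, Real.sq_sqrt (by positivity)]; simp
  have hs0 : 0 < s := Real.sqrt_pos.mpr (by exact_mod_cast hc)
  have hr0 : 0 < r := Real.sqrt_pos.mpr (by exact_mod_cast hb)
  have hq : √((b * c : ℕ) : ℝ) = s * r := by
    rw [hs, hr, ← Real.sqrt_mul (by positivity)]
    congr 1; push_cast; ring
  rw [hq]
  have ht : (t : ℝ) < s * r := by
    rw [← hq]
    apply Real.lt_sqrt_of_sq_lt
    have : t ^ 2 < b * c := by have := hl.pos; omega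
    exact_mod_cast this
  have hq2 : (s * r) ^ 2 = ((((b : ℤ) * c : ℤ)) : ℝ) := by
    rw [mul_pow, hs2, hr2]; push_cast; ring
  obtain ⟨g1, g2⟩ := gp_iter t b c s r hs2 hr2 j (w0, z0)
  rw [← h02] at g1 g2
  obtain ⟨x1, x2⟩ := XY_real t ((b : ℤ) * c) (s * r) hq2 L
  rw [← hX', ← hY'] at x1 x2
  simp only at g1 g2
  push_cast at x1 x2 g1 g2 hs2 hr2
  have hwR : (0 : ℝ) ≤ w := by exact_mod_cast hw0
  have hzR : (0 : ℝ) ≤ z := by exact_mod_cast hz0
  have hxR : (0 : ℝ) ≤ x := by exact_mod_cast hx0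
  have hyR : (0 : ℝ) ≤ y := by exact_mod_cast hy0
  have hPM : |s * (w0 : ℝ) + r * z0| * |s * (w0 : ℝ) - r * z0| = 1 := by
    rw [← abs_mul]
    have : (s * (w0 : ℝ) + r * z0) * (s * (w0 : ℝ) - r * z0) =
        (((c : ℤ) * w0 ^ 2 - b * z0 ^ 2 : ℤ) : ℝ) := by
      push_cast
      rw [← hs2, ← hr2]; ring
    rw [this]
    have h3 : ((|(c : ℤ) * w0 ^ 2 - b * z0 ^ 2| : ℤ) : ℝ) = 1 := by rw [h01]; simp
    rw [← h3, Int.cast_abs]
  have hu : 0 < s * r - t := by linarith
  have hv : s * r - t ≤ s * r + t := by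
    have : (0 : ℝ) ≤ t := by positivity
    linarith
  have hvp : 0 < s * r + (t : ℝ) := by
    have : (0 : ℝ) ≤ t := by positivity
    linarith
  have key := core (s * r - t) (s * r + t) |s * (w0 : ℝ) + r * z0| |s * (w0 : ℝ) - r * z0|
    (s * w + r * z) |s * (w : ℝ) - r * z| (s * x + r * y) |s * (x : ℝ) - r * y| j L hj hu hv
    (abs_nonneg _) (abs_nonneg _) hPM ?_ ?_ ?_ ?_ ?_ ?_
  · rw [max_abs, abs_mul, abs_mul, abs_of_pos hs0, abs_of_pos hr0] at key
    exact key
  · have h3 : (0 : ℝ) ≤ s * w + r * z := by positivity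
    rw [← abs_of_nonneg h3, g1, abs_mul, abs_pow, abs_of_pos (by linarith : (0 : ℝ) < t + s * r)]
    rw [add_comm (t : ℝ)]
  · rw [g2, abs_mul, abs_pow, abs_of_neg (by linarith : (t : ℝ) - s * r < 0)]
    rw [neg_sub]
  · rw [abs_le]
    constructor
    · nlinarith [mul_nonneg hs0.le hwR, mul_nonneg hr0.le hzR]
    · nlinarith [mul_nonneg hs0.le hwR, mul_nonneg hr0.le hzR]
  · rw [add_comm (s * r) (t : ℝ), ← x1]
    rw [← hs2, ← hr2]; ring
  · rw [← abs_mul]
    have : (s * (w : ℝ) - r * z) * (s * (x : ℝ) - r * y) = (t - s * r) ^ L := by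
      rw [← x2, ← hs2, ← hr2]; ring
    rw [this, abs_pow, abs_of_neg (by linarith : (t : ℝ) - s * r < 0), neg_sub]
  · rw [abs_le]
    constructor
    · nlinarith [mul_nonneg hs0.le hxR, mul_nonneg hr0.le hyR]
    · nlinarith [mul_nonneg hs0.le hxR, mul_nonneg hr0.le hyR]

theorem log_bound (s : ℝ) (hs : 1 ≤ s) : 2 * Real.log s ≤ s - s⁻¹ := by
  have h0 : 0 < s := by linarith
  have h1 : Real.log s ≤ Real.sinh (Real.log s) :=
    Real.self_le_sinh_iff.mpr (Real.log_nonneg hs)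
  rw [Real.sinh_log h0] at h1
  linarith

/-- Baker's pairs. -/
theorem baker (k L : ℕ) (hk : 3 ≤ k) (hp : (k * (k - 1) - 1).Prime)
    (h : Lag L (PA 1 (k * (k - 1))) (PB 1 k (k - 1))) :
    ((k : ℝ) - 1) / 2 * Real.log (4 * k - 3) ≤ L := by
  obtain ⟨c, rfl⟩ : ∃ c, k = c + 1 := ⟨k - 1, by omega⟩
  have hc : 2 ≤ c := by omega
  simp only [Nat.add_sub_cancel] at hp h
  have h6 : 6 ≤ (c + 1) * c := by nlinarith
  obtain ⟨w, z, hwz, hin⟩ := lag_bound 1 (c + 1) c ((c + 1) * c - 1) (by omega) (by omega) hp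
    (by omega) (by
      intro hd
      have := Nat.le_of_dvd (by norm_num) hd
      omega) L h
  have hw : 1 ≤ |w| := by
    apply Int.one_le_abs
    rintro rfl
    have h3 : ((c + 1 : ℕ) : ℤ) ∣ 1 := by
      rw [← hwz, dvd_abs]
      exact ⟨-z ^ 2, by ring⟩
    have := Int.le_of_dvd (by norm_num) h3
    omega
  have hz : 1 ≤ |z| := by
    apply Int.one_le_abs
    rintro rfl
    have h3 : ((c : ℕ) : ℤ) ∣ 1 := by
      rw [← hwz, dvd_abs]
      exact ⟨w ^ 2, by ring⟩
    have := Int.le_of_dvd (by norm_num) h3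
    omega
  have hwR : (1 : ℝ) ≤ |(w : ℝ)| := by exact_mod_cast hw
  have hzR : (1 : ℝ) ≤ |(z : ℝ)| := by exact_mod_cast hz
  have hcR : (2 : ℝ) ≤ c := by exact_mod_cast hc
  set q : ℝ := √(((c + 1) * c : ℕ) : ℝ) with hq
  have hq2 : q ^ 2 = (c + 1) * c := by
    rw [hq, Real.sq_sqrt (by positivity)]; push_cast; ring
  have hq0 : 0 ≤ q := Real.sqrt_nonneg _
  have hqc : (c : ℝ) < q := by
    apply lt_of_pow_lt_pow_left₀ 2 hq0
    rw [hq2]; nlinarith
  set m : ℝ := √(q ^ 2 - 1) with hm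
  have hm2 : m ^ 2 = q ^ 2 - 1 := by rw [hm, Real.sq_sqrt]; nlinarith
  have hm0 : 0 ≤ m := Real.sqrt_nonneg _
  have hmc : (c : ℝ) ≤ m := by
    rw [hm]
    apply Real.le_sqrt_of_sq_le
    rw [hq2]; nlinarith
  have hmp : 0 < m := by linarith
  have hH : 4 * (c : ℝ) + 1 ≤ (√(c : ℝ) * |(w : ℝ)| + √((c + 1 : ℕ) : ℝ) * |(z : ℝ)|) ^ 2 := by
    have hs : 0 ≤ √(c : ℝ) := Real.sqrt_nonneg _
    have hr : 0 ≤ √((c + 1 : ℕ) : ℝ) := Real.sqrt_nonneg _
    have hsr : √(c : ℝ) * √((c + 1 : ℕ) : ℝ) = q := by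
      rw [hq, ← Real.sqrt_mul (by positivity)]; congr 1; push_cast; ring
    have hs2 : √(c : ℝ) ^ 2 = c := Real.sq_sqrt (by positivity)
    have hr2 : √((c + 1 : ℕ) : ℝ) ^ 2 = c + 1 := by
      rw [Real.sq_sqrt (by positivity)]; push_cast; ring
    calc 4 * (c : ℝ) + 1 ≤ (√(c : ℝ) + √((c + 1 : ℕ) : ℝ)) ^ 2 := by
          rw [add_sq, hs2, hr2, mul_assoc, hsr]; linarith
      _ ≤ _ := by
        apply pow_le_pow_left₀ (by positivity)
        nlinarith
  have hs1 : 1 ≤ (q + 1) / m := by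
    rw [le_div_iff₀ hmp, one_mul]
    rw [hm]
    exact Real.sqrt_le_iff.mpr ⟨by linarith, by nlinarith⟩
  have hinv : ((q + 1) / m)⁻¹ = (q - 1) / m := by
    rw [inv_div, div_eq_div_iff (by linarith) hmp.ne']
    nlinarith
  have hsq : ((q + 1) / m) ^ 2 * (q - 1) = q + 1 := by
    rw [div_pow, hm2]
    have : q ^ 2 - 1 ≠ 0 := by rw [← hm2]; positivity
    field_simp
    ring
  have h7 : 4 * (c : ℝ) + 1 ≤ (((q + 1) / m) ^ 2) ^ L := by
    have hpos : 0 < (q - 1) ^ L := by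
      apply pow_pos; linarith
    apply le_of_mul_le_mul_right _ hpos
    rw [← mul_pow, hsq]
    refine le_trans (mul_le_mul_of_nonneg_right hH hpos.le) ?_
    simpa only [Nat.cast_one] using hin
  have h8 : Real.log (4 * c + 1) ≤ L * (2 * Real.log ((q + 1) / m)) := by
    have := Real.log_le_log (by positivity) h7
    rw [Real.log_pow, Real.log_pow] at this
    push_cast at this
    exact this
  have h9 := log_bound _ hs1
  rw [hinv] at h9
  have h10 : (q + 1) / m - (q - 1) / m = 2 / m := by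
    rw [← sub_div]; congr 1; ring
  rw [h10] at h9
  have h11 : Real.log (4 * c + 1) ≤ L * (2 / m) :=
    le_trans h8 (mul_le_mul_of_nonneg_left h9 (by positivity))
  have h12 : L * (2 / m) ≤ L * (2 / (c : ℝ)) := by
    apply mul_le_mul_of_nonneg_left _ (by positivity)
    apply div_le_div_of_nonneg_left (by norm_num) (by linarith) hmc
  have h13 : Real.log (4 * c + 1) ≤ L * (2 / (c : ℝ)) := le_trans h11 h12
  have h14 : (4 : ℝ) * ((c + 1 : ℕ) : ℝ) - 3 = 4 * c + 1 := by push_cast; ring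
  rw [h14]
  have h15 : (((c + 1 : ℕ) : ℝ) - 1) / 2 = c / 2 := by push_cast; ring
  rw [h15]
  calc (c : ℝ) / 2 * Real.log (4 * c + 1) ≤ (c : ℝ) / 2 * (L * (2 / (c : ℝ))) := by
        apply mul_le_mul_of_nonneg_left h13 (by positivity)
    _ = L := by field_simp

/-- Powers of `1 + √2`. -/
def E : ℕ → ℤ × ℤ
  | 0 => (1, 0)
  | i + 1 => ((E i).1 + 2 * (E i).2, (E i).1 + (E i).2)

theorem E_real (i : ℕ) : ((E i).1 : ℝ) + √2 * (E i).2 = (1 + √2) ^ i := by
  induction i with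
  | zero => simp [E]
  | succ i ih =>
    have h2 : √2 ^ 2 = (2 : ℝ) := Real.sq_sqrt (by norm_num)
    rw [pow_succ, ← ih, E]
    simp only
    push_cast
    linear_combination (-((E i).2 : ℝ)) * h2

theorem E_norm (i : ℕ) : |(E i).1 ^ 2 - 2 * (E i).2 ^ 2| = 1 := by
  induction i with
  | zero => simp [E]
  | succ i ih =>
    rw [E]
    simp only
    rw [show ((E i).1 + 2 * (E i).2) ^ 2 - 2 * ((E i).1 + (E i).2) ^ 2 =
      -((E i).1 ^ 2 - 2 * (E i).2 ^ 2) by ring, abs_neg]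
    exact ih

theorem E_surj : ∀ N : ℕ, ∀ X z : ℤ, 0 ≤ X → 0 ≤ z → z ≤ N → |X ^ 2 - 2 * z ^ 2| = 1 →
    ∃ i, E i = (X, z) := by
  intro N
  induction N with
  | zero =>
    intro X z hX hz hzN h
    have hz0 : z = 0 := by push_cast at hzN; omega
    subst hz0
    have h1 : X ^ 2 = 1 := by
      have : |X ^ 2| = 1 := by simpa using h
      rwa [abs_of_nonneg (by positivity)] at this
    have : X = 1 := by nlinarith
    exact ⟨0, by rw [this]; rfl⟩
  | succ N ih =>
    intro X z hX hz hzN h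
    by_cases hz0 : z = 0
    · exact ih X z hX hz (by rw [hz0]; positivity) h
    have hz1 : 1 ≤ z := by omega
    have h1 : X ^ 2 - 2 * z ^ 2 ≤ 1 := (abs_le.mp h.le).2
    have h2 : -1 ≤ X ^ 2 - 2 * z ^ 2 := (abs_le.mp h.le).1
    have h3 : z ≤ X := by nlinarith
    have h4 : X < 2 * z := by nlinarith
    obtain ⟨i, hi⟩ := ih (2 * z - X) (X - z) (by omega) (by omega) (by push_cast at hzN; omega) (by
      rw [show (2 * z - X) ^ 2 - 2 * (X - z) ^ 2 = -(X ^ 2 - 2 * z ^ 2) by ring, abs_neg]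
      exact h)
    refine ⟨i + 1, ?_⟩
    rw [E, hi]
    ext <;> simp <;> ring

theorem E_mod9 : ∀ i : ℕ, (9 : ℤ) ∣ (E i).1 → 3 ∣ i := by
  intro i
  induction i using Nat.strong_induction_on with
  | _ i ih =>
    intro h
    rcases lt_or_ge i 12 with hi | hi
    · interval_cases i <;> simp [E] at h ⊢
    · obtain ⟨j, rfl⟩ := Nat.exists_eq_add_of_le' hi
      have h1 : (E (j + 12)).1 = 19601 * (E j).1 + 27720 * (E j).2 := by
        simp only [E]; ring
      rw [h1] at h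
      have h2 : (9 : ℤ) ∣ (E j).1 := by omega
      have := ih j (by omega) h2
      omega

theorem E_add (i j : ℕ) : (E (i + j)).1 = (E i).1 * (E j).1 + 2 * (E i).2 * (E j).2 ∧
    (E (i + j)).2 = (E i).1 * (E j).2 + (E i).2 * (E j).1 := by
  induction j with
  | zero => simp [E]
  | succ j ih =>
    rw [← add_assoc, E, E]
    simp only
    rw [ih.1, ih.2]
    constructor <;> ring

theorem E_three (j : ℕ) : (E (3 * j)).1 = (E j).1 * ((E j).1 ^ 2 + 6 * (E j).2 ^ 2) := by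
  rw [show 3 * j = j + j + j by ring, (E_add (j + j) j).1, (E_add j j).1, (E_add j j).2]
  ring

theorem E_lower : ∀ m i : ℕ, (3 : ℤ) ^ (m + 1) ∣ (E i).1 → 2 * 3 ^ m ≤ i := by
  intro m
  induction m with
  | zero =>
    intro i h
    by_contra hc
    push Not at hc
    interval_cases i <;> simp [E] at h <;> omega
  | succ m ih =>
    intro i h
    have h9 : (9 : ℤ) ∣ (E i).1 := by
      exact dvd_trans ⟨3 ^ m, by rw [pow_succ, pow_succ]; ring⟩ h
    obtain ⟨j, rfl⟩ := E_mod9 i h9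
    rw [E_three] at h h9
    have hp3 : Prime (3 : ℤ) := Int.prime_three
    have h3 : (3 : ℤ) ∣ (E j).1 := by
      have h3' : (3 : ℤ) ∣ (E j).1 * ((E j).1 ^ 2 + 6 * (E j).2 ^ 2) :=
        dvd_trans (by norm_num) h9
      rcases hp3.dvd_or_dvd h3' with h' | h'
      · exact h'
      · have : (3 : ℤ) ∣ (E j).1 ^ 2 := by omega
        exact hp3.dvd_of_dvd_pow this
    obtain ⟨a, ha⟩ := h3
    have hu : ¬ (3 : ℤ) ∣ 3 * a ^ 2 + 2 * (E j).2 ^ 2 := by
      intro hd
      have h4 : (3 : ℤ) ∣ (E j).2 ^ 2 := by omega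
      have h5 : (3 : ℤ) ∣ 1 := by
        rw [← E_norm j, dvd_abs]
        apply dvd_sub
        · rw [ha]; exact ⟨3 * a ^ 2, by ring⟩
        · exact Dvd.dvd.mul_left h4 2
      omega
    have h6 : (3 : ℤ) ^ (m + 1) ∣ (E j).1 * (3 * a ^ 2 + 2 * (E j).2 ^ 2) := by
      apply Int.dvd_of_mul_dvd_mul_left (a := 3) (by norm_num) _
      rw [← pow_succ']
      refine dvd_trans h (dvd_of_eq ?_)
      rw [ha]; ring
    have h7 : (3 : ℤ) ^ (m + 1) ∣ (E j).1 := by
      have hcop : IsCoprime ((3 : ℤ) ^ (m + 1)) (3 * a ^ 2 + 2 * (E j).2 ^ 2) :=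
        IsCoprime.pow_left ((Prime.coprime_iff_not_dvd hp3).mpr hu)
      exact hcop.dvd_of_dvd_mul_right h6
    have := ih j h7
    rw [pow_succ]
    omega

theorem E_exists (m : ℕ) : (3 : ℤ) ^ (m + 1) ∣ (E (2 * 3 ^ m)).1 := by
  induction m with
  | zero => simp [E]
  | succ m ih =>
    rw [show 2 * 3 ^ (m + 1) = 3 * (2 * 3 ^ m) by rw [pow_succ]; ring, E_three, pow_succ]
    apply mul_dvd_mul ih
    have : (3 : ℤ) ∣ (E (2 * 3 ^ m)).1 := dvd_trans (dvd_pow_self 3 (by omega)) ih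
    obtain ⟨a, ha⟩ := this
    rw [ha]
    exact ⟨3 * a ^ 2 + 2 * (E (2 * 3 ^ m)).2 ^ 2, by ring⟩


/-- The arithmetic of the ratio. -/
theorem ratio (m t : ℕ) (q : ℝ) (hq : q = √2 * 3 ^ (m + 1)) (ht : 3 * t ≤ 4 * 3 ^ (m + 1))
    (_ : (t : ℝ) < q) : q + t ≤ (1 + √2) ^ 4 * (q - t) := by
  have h2 : √2 ^ 2 = (2 : ℝ) := Real.sq_sqrt (by norm_num)
  have h4 : (1 + √2) ^ 4 = (17 : ℝ) + 12 * √2 := by
    calc (1 + √2) ^ 4 = (1 + 2 * √2 + √2 ^ 2) ^ 2 := by ring
      _ = (3 + 2 * √2) ^ 2 := by rw [h2]; ring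
      _ = 9 + 12 * √2 + 4 * √2 ^ 2 := by ring
      _ = _ := by rw [h2]; ring
  rw [h4, hq]
  have htR : 3 * (t : ℝ) ≤ 4 * 3 ^ (m + 1) := by exact_mod_cast ht
  have h0 : 0 ≤ √(2 : ℝ) := Real.sqrt_nonneg _
  have h5 : (17 + 12 * √2) * (√2 * 3 ^ (m + 1) - t) - (√2 * 3 ^ (m + 1) + t) =
    (16 * √2 + 24) * 3 ^ (m + 1) - (18 + 12 * √2) * (t : ℝ) := by
    linear_combination (12 * (3 : ℝ) ^ (m + 1)) * h2
  have h6 : (18 + 12 * √2) * (t : ℝ) ≤ (16 * √2 + 24) * 3 ^ (m + 1) := by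
    calc (18 + 12 * √2) * (t : ℝ) = (6 + 4 * √2) * (3 * (t : ℝ)) := by ring
      _ ≤ (6 + 4 * √2) * (4 * 3 ^ (m + 1)) := by gcongr
      _ = _ := by ring
  linarith

/-- Long chains. -/
theorem long (m t L : ℕ) (ht : 3 * t ≤ 4 * 3 ^ (m + 1)) (ht0 : 0 < t) (l : ℕ) (hl : l.Prime)
    (hn : l + t ^ 2 = 2 * 9 ^ (m + 1)) (h2 : ¬ l ∣ 2 * t)
    (h : Lag L (PA t (2 * 9 ^ (m + 1))) (PB t 2 (9 ^ (m + 1)))) : 3 ^ m ≤ L := by
  obtain ⟨w, z, hwz, hin⟩ := lag_bound t 2 (9 ^ (m + 1)) l (by norm_num) (Nat.one_le_pow _ _ (by norm_num)) hl hn h2 L h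
  have h9 : ((9 ^ (m + 1) : ℕ) : ℝ) = (3 ^ (m + 1)) ^ 2 := by
    push_cast
    rw [← pow_mul, mul_comm, pow_mul]; norm_num
  have hs : √((9 ^ (m + 1) : ℕ) : ℝ) = 3 ^ (m + 1) := by
    rw [h9]; exact Real.sqrt_sq (by positivity)
  have hq : √((2 * 9 ^ (m + 1) : ℕ) : ℝ) = √2 * 3 ^ (m + 1) := by
    rw [Nat.cast_mul, Real.sqrt_mul (by positivity), hs]; simp
  rw [hs, hq] at hin
  have h9Z : ((9 ^ (m + 1) : ℕ) : ℤ) = (3 ^ (m + 1)) ^ 2 := by
    push_cast
    rw [← pow_mul, mul_comm, pow_mul]; norm_num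
  have hE : |(3 ^ (m + 1) * |w|) ^ 2 - 2 * |z| ^ 2| = 1 := by
    rw [← hwz, h9Z, mul_pow, sq_abs, sq_abs]; norm_num
  obtain ⟨i, hi⟩ := E_surj (z.natAbs) (3 ^ (m + 1) * |w|) |z| (by positivity) (by positivity)
    (by rw [Int.natCast_natAbs]) hE
  have hi2 : 2 * 3 ^ m ≤ i := E_lower m i (by rw [hi]; exact Dvd.intro _ rfl)
  have hER := E_real i
  rw [hi] at hER
  simp only at hER
  push_cast at hER
  rw [Nat.cast_ofNat, hER] at hin
  have htq : (t : ℝ) < √2 * 3 ^ (m + 1) := by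
    rw [← hq]
    apply Real.lt_sqrt_of_sq_lt
    have : t ^ 2 < 2 * 9 ^ (m + 1) := by have := hl.pos; omega
    exact_mod_cast this
  have hr := ratio m t _ rfl ht htq
  have h1 : ((1 + √2 : ℝ) ^ i) ^ 2 * (√2 * 3 ^ (m + 1) - t) ^ L ≤
      ((1 + √2) ^ 4) ^ L * (√2 * 3 ^ (m + 1) - t) ^ L := by
    rw [← mul_pow]
    exact le_trans hin (pow_le_pow_left₀ (by positivity) hr L)
  have h3 : ((1 + √2 : ℝ) ^ i) ^ 2 ≤ ((1 + √2) ^ 4) ^ L :=
    le_of_mul_le_mul_right h1 (pow_pos (by linarith) L)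
  rw [← pow_mul, ← pow_mul] at h3
  have h4 : i * 2 ≤ 4 * L := by
    by_contra hc
    push Not at hc
    have h5 : (1 : ℝ) < 1 + √2 := by
      have : 0 < √(2 : ℝ) := Real.sqrt_pos.mpr (by norm_num)
      linarith
    exact absurd (pow_lt_pow_right₀ h5 hc) (not_lt.mpr h3)
  omega

theorem chain_of_sse {X Y : Pool.Agent.Q133.SS.SqMat} (h : Pool.Agent.Q133.SS.SSE X Y) :
    ∃ L, Chain L X Y := by
  unfold Pool.Agent.Q133.SS.SSE at h
  induction h using Relation.TransGen.head_induction_on with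
  | single h => exact ⟨1, Chain.cons h (Chain.nil _)⟩
  | head h _ ih =>
    obtain ⟨L, hL⟩ := ih
    exact ⟨L + 1, Chain.cons h hL⟩

theorem long_chain (m t : ℕ) (h1 : 3 ^ (m + 1) ≤ t) (h2 : t ^ 2 < 2 * 9 ^ (m + 1)) :
    ∃ L, Chain L (PA t (2 * 9 ^ (m + 1))) (PB t 2 (9 ^ (m + 1))) := by
  obtain ⟨w, hw⟩ := E_exists m
  have hN := E_norm (2 * 3 ^ m)
  rw [hw] at hN
  generalize (E (2 * 3 ^ m)).2 = z at hN
  have h9 : (9 : ℤ) ^ (m + 1) = 3 ^ (m + 1) * 3 ^ (m + 1) := by
    rw [← mul_pow]; norm_num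
  have h9' : 9 ^ (m + 1) = 3 ^ (m + 1) * 3 ^ (m + 1) := by
    rw [← mul_pow]; norm_num
  have h9t : 9 ^ (m + 1) ≤ t ^ 2 := by
    rw [h9', sq]; exact Nat.mul_le_mul h1 h1
  have hpos : 0 < 9 ^ (m + 1) := by positivity
  apply chain_of_sse
  refine Pool.Agent.Q133.SS.region_nat !![t, 2 * 9 ^ (m + 1); 1, t] !![t, 2; 9 ^ (m + 1), t]
    (by simp) (by simp) (by simp) (by simp) ?_ ?_ !![(9 : ℤ) ^ (m + 1) * w, 2 * z; z, w] ?_ ?_
  · simp only [of_apply, cons_val', cons_val_zero, cons_val_one, cons_val_fin_one]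
    rw [← sq, mul_one]; exact h2
  · simp only [of_apply, cons_val', cons_val_zero, cons_val_one, cons_val_fin_one]
    nlinarith
  · rw [Matrix.det_fin_two_of, Int.isUnit_iff_abs_eq]
    rw [show (9 : ℤ) ^ (m + 1) * w * w - 2 * z * z = (3 ^ (m + 1) * w) ^ 2 - 2 * z ^ 2 by
      rw [h9]; ring]
    exact hN
  · ext i j
    fin_cases i <;> fin_cases j <;> simp [Matrix.mul_apply, Fin.sum_univ_two] <;> ring

/-- The powers over the nonnegative integers. -/
def XN (t n : ℕ) : ℕ → ℕ × ℕ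
  | 0 => (1, 0)
  | L + 1 => (t * (XN t n L).1 + n * (XN t n L).2, (XN t n L).1 + t * (XN t n L).2)

theorem XN_cast (t n L : ℕ) : ((XN t n L).1 : ℤ) = (XY t n L).1 ∧
    ((XN t n L).2 : ℤ) = (XY t n L).2 := by
  induction L with
  | zero => simp [XN, XY]
  | succ L ih =>
    rw [XN, XY]
    simp only
    push_cast
    rw [ih.1, ih.2]
    exact ⟨rfl, rfl⟩

theorem powA (t b c L : ℕ) : (!![t, b * c; 1, t] : Matrix (Fin 2) (Fin 2) ℕ) ^ L =
    !![(XN t (b * c) L).1, b * c * (XN t (b * c) L).2;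
      (XN t (b * c) L).2, (XN t (b * c) L).1] := by
  induction L with
  | zero => ext i j; fin_cases i <;> fin_cases j <;> simp [XN]
  | succ L ih =>
    rw [pow_succ', ih]
    ext i j
    fin_cases i <;> fin_cases j <;> simp [XN, Matrix.mul_apply, Fin.sum_univ_two] <;> ring

theorem powB (t b c L : ℕ) : (!![t, b; c, t] : Matrix (Fin 2) (Fin 2) ℕ) ^ L =
    !![(XN t (b * c) L).1, b * (XN t (b * c) L).2;
      c * (XN t (b * c) L).2, (XN t (b * c) L).1] := by
  induction L with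
  | zero => ext i j; fin_cases i <;> fin_cases j <;> simp [XN]
  | succ L ih =>
    rw [pow_succ', ih]
    ext i j
    fin_cases i <;> fin_cases j <;> simp [XN, Matrix.mul_apply, Fin.sum_univ_two] <;> ring

theorem lag_of (t b c L w z x y : ℕ)
    (hX : (XN t (b * c) L).1 = c * w * x + b * z * y)
    (hY : (XN t (b * c) L).2 = w * y + z * x) :
    Lag L (PA t (b * c)) (PB t b c) := by
  have e1 : (!![t, b * c; 1, t] : Matrix (Fin 2) (Fin 2) ℕ) ^ L =
      !![c * w, b * z; z, w] * !![x, b * y; y, c * x] := by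
    rw [powA, hX, hY]
    ext i j
    fin_cases i <;> fin_cases j <;> simp [Matrix.mul_apply, Fin.sum_univ_two] <;> ring
  have e2 : (!![t, b; c, t] : Matrix (Fin 2) (Fin 2) ℕ) ^ L =
      !![x, b * y; y, c * x] * !![c * w, b * z; z, w] := by
    rw [powB, hX, hY]
    ext i j
    fin_cases i <;> fin_cases j <;> simp [Matrix.mul_apply, Fin.sum_univ_two] <;> ring
  have e3 : (!![t, b * c; 1, t] : Matrix (Fin 2) (Fin 2) ℕ) * !![c * w, b * z; z, w] =
      !![c * w, b * z; z, w] * !![t, b; c, t] := by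
    ext i j
    fin_cases i <;> fin_cases j <;> simp [Matrix.mul_apply, Fin.sum_univ_two] <;> ring
  have e4 : (!![x, b * y; y, c * x] : Matrix (Fin 2) (Fin 2) ℕ) * !![t, b * c; 1, t] =
      !![t, b; c, t] * !![x, b * y; y, c * x] := by
    ext i j
    fin_cases i <;> fin_cases j <;> simp [Matrix.mul_apply, Fin.sum_univ_two] <;> ring
  exact ⟨_, _, e1, e2, e3, e4⟩

/-- The converse. -/
theorem lag_exists (t b c : ℕ) (hb : 1 ≤ b) (hc : 1 ≤ c) (htn : t ^ 2 < b * c) (L : ℕ)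
    (w z : ℤ) (h1 : |(c : ℤ) * w ^ 2 - b * z ^ 2| = 1)
    (h2 : (√(c : ℝ) * |(w : ℝ)| + √(b : ℝ) * |(z : ℝ)|) ^ 2 * (√((b * c : ℕ) : ℝ) - t) ^ L ≤
        (√((b * c : ℕ) : ℝ) + t) ^ L) :
    Lag L (PA t (b * c)) (PB t b c) := by
  set X : ℤ := (XY t ((b : ℤ) * c) L).1 with hX
  set Y : ℤ := (XY t ((b : ℤ) * c) L).2 with hY
  set W : ℤ := |w| with hW
  set Z : ℤ := |z| with hZ
  have hW0 : 0 ≤ W := abs_nonneg _
  have hZ0 : 0 ≤ Z := abs_nonneg _
  have h1' : |(c : ℤ) * W ^ 2 - b * Z ^ 2| = 1 := by rw [hW, hZ, sq_abs, sq_abs]; exact h1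
  set d : ℤ := (c : ℤ) * W ^ 2 - b * Z ^ 2 with hd
  have hdd : d * d = 1 := by
    rw [← sq, ← sq_abs, h1']; norm_num
  set s : ℝ := √(c : ℝ) with hs
  set r : ℝ := √(b : ℝ) with hr
  have hs2 : s ^ 2 = (c : ℝ) := by rw [hs, Real.sq_sqrt (by positivity)]
  have hr2 : r ^ 2 = (b : ℝ) := by rw [hr, Real.sq_sqrt (by positivity)]
  have hs0 : 0 < s := Real.sqrt_pos.mpr (by exact_mod_cast hc)
  have hr0 : 0 < r := Real.sqrt_pos.mpr (by exact_mod_cast hb)
  have hq : √((b * c : ℕ) : ℝ) = s * r := by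
    rw [hs, hr, ← Real.sqrt_mul (by positivity)]
    congr 1; push_cast; ring
  rw [hq] at h2
  have ht : (t : ℝ) < s * r := by
    rw [← hq]
    apply Real.lt_sqrt_of_sq_lt
    exact_mod_cast htn
  have ht0 : (0 : ℝ) ≤ t := by positivity
  have hq2 : (s * r) ^ 2 = ((((b : ℤ) * c : ℤ)) : ℝ) := by
    rw [mul_pow, hs2, hr2]; push_cast; ring
  obtain ⟨x1, x2⟩ := XY_real t ((b : ℤ) * c) (s * r) hq2 L
  rw [← hX, ← hY] at x1 x2
  push_cast at x1 x2
  have hWR : (W : ℝ) = |(w : ℝ)| := by rw [hW]; push_cast; rfl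
  have hZR : (Z : ℝ) = |(z : ℝ)| := by rw [hZ]; push_cast; rfl
  rw [← hWR, ← hZR] at h2
  have hWR0 : (0 : ℝ) ≤ W := by exact_mod_cast hW0
  have hZR0 : (0 : ℝ) ≤ Z := by exact_mod_cast hZ0
  have hdR : (d : ℝ) = (s * W + r * Z) * (s * W - r * Z) := by
    rw [hd]; push_cast; rw [← hs2, ← hr2]; ring
  have hddR : (d : ℝ) * d = 1 := by exact_mod_cast hdd
  set g : ℝ := s * W + r * Z with hg
  have hg0 : 0 ≤ g := by positivity
  have hgpos : 0 < g := by
    rcases lt_or_eq_of_le hg0 with h | h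
    · exact h
    · rw [hdR, ← h] at hddR; simp at hddR
  -- the other factor
  set x : ℤ := d * (w.natAbs * X - b * Z * Y) with hx
  set y : ℤ := d * (c * W * Y - Z * X) with hy
  have hWn : (w.natAbs : ℤ) = W := by rw [hW, Int.natCast_natAbs]
  rw [hWn] at hx
  have hv : (s * r + t) ^ L = (X : ℝ) + s * r * Y := by rw [add_comm, ← x1]
  have hu : |(t - s * r) ^ L| = (s * r - t) ^ L := by
    rw [abs_pow, abs_of_neg (by linarith), neg_sub]
  have hdp : s * (x : ℝ) + r * y = (s * r + t) ^ L * (d * (s * W - r * Z)) := by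
    rw [hv, hx, hy]; push_cast; rw [← hs2, ← hr2]; ring
  have hdm : s * (x : ℝ) - r * y = d * (t - s * r) ^ L * g := by
    rw [← x2, hx, hy, hg]; push_cast; rw [← hs2, ← hr2]; ring
  have hpg : (d : ℝ) * (s * W - r * Z) * g = 1 := by
    rw [← hddR]
    nth_rewrite 3 [hdR]
    ring
  have hle : |s * (x : ℝ) - r * y| ≤ s * (x : ℝ) + r * y := by
    rw [hdm, hdp, abs_mul, abs_mul, hu, abs_of_pos hgpos]
    have hd1 : |(d : ℝ)| = 1 := by
      have : ((|d| : ℤ) : ℝ) = 1 := by rw [h1']; simp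
      rwa [Int.cast_abs] at this
    rw [hd1, one_mul]
    apply le_of_mul_le_mul_right _ hgpos
    calc (s * r - t) ^ L * g * g = g ^ 2 * (s * r - t) ^ L := by ring
      _ ≤ (s * r + t) ^ L := h2
      _ = (s * r + t) ^ L * (d * (s * W - r * Z) * g) := by rw [hpg, mul_one]
      _ = _ := by ring
  obtain ⟨l1, l2⟩ := abs_le.mp hle
  have hx0 : 0 ≤ x := by
    have : 0 ≤ s * (x : ℝ) := by linarith
    have : 0 ≤ (x : ℝ) := nonneg_of_mul_nonneg_right this hs0
    exact_mod_cast this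
  have hy0 : 0 ≤ y := by
    have : 0 ≤ r * (y : ℝ) := by linarith
    have : 0 ≤ (y : ℝ) := nonneg_of_mul_nonneg_right this hr0
    exact_mod_cast this
  obtain ⟨n1, n2⟩ := XN_cast t (b * c) L
  push_cast at n1 n2
  rw [← hX] at n1
  rw [← hY] at n2
  refine lag_of t b c L W.toNat Z.toNat x.toNat y.toNat ?_ ?_
  · zify
    rw [n1, Int.toNat_of_nonneg hW0, Int.toNat_of_nonneg hZ0, Int.toNat_of_nonneg hx0,
      Int.toNat_of_nonneg hy0, hx, hy]
    linear_combination (-X) * hdd + d * X * hd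
  · zify
    rw [n2, Int.toNat_of_nonneg hW0, Int.toNat_of_nonneg hZ0, Int.toNat_of_nonneg hx0,
      Int.toNat_of_nonneg hy0, hx, hy]
    linear_combination (-Y) * hdd + d * Y * hd

theorem prime_l : Nat.Prime 109418963608249055489 := by
  have hne : ∀ r : ℕ, 1 < r → r < 109418963608249055489 → ((r : ℕ) : ZMod 109418963608249055489) ≠ 1 := by
    intro r h1 h2 h
    have : ((r : ℕ) : ZMod 109418963608249055489) = ((1 : ℕ) : ZMod 109418963608249055489) := by rw [h]; simp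
    rw [ZMod.natCast_eq_natCast_iff'] at this
    rw [Nat.mod_eq_of_lt h2, Nat.mod_eq_of_lt (by norm_num)] at this
    omega
  refine lucas_primality 109418963608249055489 (3 : ZMod 109418963608249055489) ?_ ?_
  · rw [show 109418963608249055489 - 1 = 109418963608249055488 by norm_num]
    reduce_mod_char
  · intro q hq hd
    have hf : 109418963608249055489 - 1 = 2 ^ 8 * 7 * 13 * 23 * 1667 * 92699 * 1321517 := by norm_num
    have hq' : q = 2 ∨ q = 7 ∨ q = 13 ∨ q = 23 ∨ q = 1667 ∨ q = 92699 ∨ q = 1321517 := by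
      rw [hf] at hd
      have p2 : Nat.Prime 2 := by norm_num
      have p7 : Nat.Prime 7 := by norm_num
      have p13 : Nat.Prime 13 := by norm_num
      have p23 : Nat.Prime 23 := by norm_num
      have p1667 : Nat.Prime 1667 := by norm_num
      have p92699 : Nat.Prime 92699 := by norm_num
      have p1321517 : Nat.Prime 1321517 := by norm_num
      simp only [Nat.Prime.dvd_mul hq] at hd
      rcases hd with (((((hd | hd) | hd) | hd) | hd) | hd) | hd
      · exact Or.inl ((Nat.prime_dvd_prime_iff_eq hq p2).mp (hq.dvd_of_dvd_pow hd))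
      · exact Or.inr (Or.inl ((Nat.prime_dvd_prime_iff_eq hq p7).mp hd))
      · exact Or.inr (Or.inr (Or.inl ((Nat.prime_dvd_prime_iff_eq hq p13).mp hd)))
      · exact Or.inr (Or.inr (Or.inr (Or.inl ((Nat.prime_dvd_prime_iff_eq hq p23).mp hd))))
      · exact Or.inr (Or.inr (Or.inr (Or.inr (Or.inl
          ((Nat.prime_dvd_prime_iff_eq hq p1667).mp hd)))))
      · exact Or.inr (Or.inr (Or.inr (Or.inr (Or.inr (Or.inl
          ((Nat.prime_dvd_prime_iff_eq hq p92699).mp hd))))))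
      · exact Or.inr (Or.inr (Or.inr (Or.inr (Or.inr (Or.inr
          ((Nat.prime_dvd_prime_iff_eq hq p1321517).mp hd))))))
    rcases hq' with rfl | rfl | rfl | rfl | rfl | rfl | rfl
    · rw [show (109418963608249055489 - 1) / 2 = 54709481804124527744 by norm_num,
        show (3 : ZMod 109418963608249055489) ^ 54709481804124527744 = ((109418963608249055488 : ℕ) : ZMod 109418963608249055489) by
          push_cast; reduce_mod_char]
      exact hne _ (by norm_num) (by norm_num)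
    · rw [show (109418963608249055489 - 1) / 7 = 15631280515464150784 by norm_num,
        show (3 : ZMod 109418963608249055489) ^ 15631280515464150784 = ((98636785075281379483 : ℕ) : ZMod 109418963608249055489) by
          push_cast; reduce_mod_char]
      exact hne _ (by norm_num) (by norm_num)
    · rw [show (109418963608249055489 - 1) / 13 = 8416843354480696576 by norm_num,
        show (3 : ZMod 109418963608249055489) ^ 8416843354480696576 = ((16794731220515123155 : ℕ) : ZMod 109418963608249055489) by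
          push_cast; reduce_mod_char]
      exact hne _ (by norm_num) (by norm_num)
    · rw [show (109418963608249055489 - 1) / 23 = 4757346243836915456 by norm_num,
        show (3 : ZMod 109418963608249055489) ^ 4757346243836915456 = ((35398836460435087924 : ℕ) : ZMod 109418963608249055489) by
          push_cast; reduce_mod_char]
      exact hne _ (by norm_num) (by norm_num)
    · rw [show (109418963608249055489 - 1) / 1667 = 65638250514846464 by norm_num,
        show (3 : ZMod 109418963608249055489) ^ 65638250514846464 = ((49799272007260504263 : ℕ) : ZMod 109418963608249055489) by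
          push_cast; reduce_mod_char]
      exact hne _ (by norm_num) (by norm_num)
    · rw [show (109418963608249055489 - 1) / 92699 = 1180368327686912 by norm_num,
        show (3 : ZMod 109418963608249055489) ^ 1180368327686912 = ((32552343779704031886 : ℕ) : ZMod 109418963608249055489) by
          push_cast; reduce_mod_char]
      exact hne _ (by norm_num) (by norm_num)
    · rw [show (109418963608249055489 - 1) / 1321517 = 82797999275264 by norm_num,
        show (3 : ZMod 109418963608249055489) ^ 82797999275264 = ((73174009937027262142 : ℕ) : ZMod 109418963608249055489) by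
          push_cast; reduce_mod_char]
      exact hne _ (by norm_num) (by norm_num)

/-- The exact criterion for Baker's pairs. -/
theorem baker_iff (k L : ℕ) (hk : 3 ≤ k) (hp : (k * (k - 1) - 1).Prime) :
    Lag L (PA 1 (k * (k - 1))) (PB 1 k (k - 1)) ↔
      (√((k - 1 : ℕ) : ℝ) + √(k : ℝ)) ^ 2 * (√((k * (k - 1) : ℕ) : ℝ) - 1) ^ L ≤
        (√((k * (k - 1) : ℕ) : ℝ) + 1) ^ L := by
  obtain ⟨c, rfl⟩ : ∃ c, k = c + 1 := ⟨k - 1, by omega⟩
  have hc : 2 ≤ c := by omega
  simp only [Nat.add_sub_cancel] at hp ⊢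
  have h6 : 6 ≤ (c + 1) * c := by nlinarith
  constructor
  · intro h
    obtain ⟨w, z, hwz, hin⟩ := lag_bound 1 (c + 1) c ((c + 1) * c - 1) (by omega) (by omega) hp
      (by omega) (by
        intro hd
        have := Nat.le_of_dvd (by norm_num) hd
        omega) L h
    have hw : 1 ≤ |w| := by
      apply Int.one_le_abs
      rintro rfl
      have h3 : ((c + 1 : ℕ) : ℤ) ∣ 1 := by
        rw [← hwz, dvd_abs]
        exact ⟨-z ^ 2, by ring⟩
      have := Int.le_of_dvd (by norm_num) h3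
      omega
    have hz : 1 ≤ |z| := by
      apply Int.one_le_abs
      rintro rfl
      have h3 : ((c : ℕ) : ℤ) ∣ 1 := by
        rw [← hwz, dvd_abs]
        exact ⟨w ^ 2, by ring⟩
      have := Int.le_of_dvd (by norm_num) h3
      omega
    have hwR : (1 : ℝ) ≤ |(w : ℝ)| := by exact_mod_cast hw
    have hzR : (1 : ℝ) ≤ |(z : ℝ)| := by exact_mod_cast hz
    have hs : 0 ≤ √(c : ℝ) := Real.sqrt_nonneg _
    have hr : 0 ≤ √((c + 1 : ℕ) : ℝ) := Real.sqrt_nonneg _
    have hq1 : (1 : ℝ) ≤ √(((c + 1) * c : ℕ) : ℝ) := by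
      apply Real.le_sqrt_of_sq_le
      have : 1 ^ 2 ≤ (c + 1) * c := by omega
      exact_mod_cast this
    have hin' : (√(c : ℝ) * |(w : ℝ)| + √((c + 1 : ℕ) : ℝ) * |(z : ℝ)|) ^ 2 *
        (√(((c + 1) * c : ℕ) : ℝ) - 1) ^ L ≤ (√(((c + 1) * c : ℕ) : ℝ) + 1) ^ L := by
      simpa only [Nat.cast_one] using hin
    refine le_trans (mul_le_mul_of_nonneg_right ?_ (pow_nonneg (by linarith) L)) hin'
    apply pow_le_pow_left₀ (by positivity)
    nlinarith
  · intro h
    refine lag_exists 1 (c + 1) c (by omega) (by omega) (by omega) L 1 1 ?_ ?_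
    · have e : (c : ℤ) * (1 : ℤ) ^ 2 - ((c + 1 : ℕ) : ℤ) * (1 : ℤ) ^ 2 = -1 := by
        push_cast; ring
      rw [e]; rfl
    · simpa only [Int.cast_one, abs_one, mul_one, Nat.cast_one] using h

theorem not_dvd (m t l : ℕ) (hl : l.Prime) (h3 : 3 < l) (hn : l + t ^ 2 = 2 * 9 ^ (m + 1)) :
    ¬ l ∣ 2 * t := by
  intro h
  have hl2 : ¬ l ∣ 2 := fun h' => by have := Nat.le_of_dvd (by norm_num) h'; omega
  have hlt : l ∣ t := by
    rcases (Nat.Prime.dvd_mul hl).mp h with h' | h'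
    · exact absurd h' hl2
    · exact h'
  have h1 : l ∣ 2 * 9 ^ (m + 1) := by
    rw [← hn]
    exact dvd_add (dvd_refl l) (dvd_pow hlt (by norm_num))
  rcases (Nat.Prime.dvd_mul hl).mp h1 with h' | h'
  · exact hl2 h'
  · have h9 : l ∣ 3 ^ 2 := by
      have := hl.dvd_of_dvd_pow h'
      norm_num
      exact this
    have := Nat.le_of_dvd (by norm_num) (hl.dvd_of_dvd_pow h9)
    omega

theorem family (m t l : ℕ) (hl : l.Prime) (h3 : 3 < l) (hn : l + t ^ 2 = 2 * 9 ^ (m + 1))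
    (h1 : 3 ^ (m + 1) ≤ t) (h2 : 3 * t ≤ 4 * 3 ^ (m + 1)) :
    (∃ L, Chain L (PA t (2 * 9 ^ (m + 1))) (PB t 2 (9 ^ (m + 1)))) ∧
      ∀ L, Lag L (PA t (2 * 9 ^ (m + 1))) (PB t 2 (9 ^ (m + 1))) → 3 ^ m ≤ L := by
  have ht0 : 0 < t := lt_of_lt_of_le (by positivity) h1
  exact ⟨long_chain m t h1 (by omega),
    fun L h => long m t L h2 ht0 l hl hn (not_dvd m t l hl h3 hn) h⟩

/-- The lag criterion, the bound for Baker's pairs, and strong shift equivalent pairs all of whose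
chains are very long. -/
theorem result :
    (∀ t b c l L : ℕ, 1 ≤ b → 1 ≤ c → l.Prime → l + t ^ 2 = b * c → ¬ l ∣ 2 * t →
      (Lag L (PA t (b * c)) (PB t b c) ↔ ∃ w z : ℤ, |(c : ℤ) * w ^ 2 - b * z ^ 2| = 1 ∧
        (√(c : ℝ) * |(w : ℝ)| + √(b : ℝ) * |(z : ℝ)|) ^ 2 * (√((b * c : ℕ) : ℝ) - t) ^ L ≤
          (√((b * c : ℕ) : ℝ) + t) ^ L)) ∧
    (∀ (L : ℕ) (X Y : SqMat), Chain L X Y → Lag L X Y) ∧
    (∀ k L : ℕ, 3 ≤ k → (k * (k - 1) - 1).Prime →
      (Lag L (PA 1 (k * (k - 1))) (PB 1 k (k - 1)) ↔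
        (√((k - 1 : ℕ) : ℝ) + √(k : ℝ)) ^ 2 * (√((k * (k - 1) : ℕ) : ℝ) - 1) ^ L ≤
          (√((k * (k - 1) : ℕ) : ℝ) + 1) ^ L) ∧
      (Lag L (PA 1 (k * (k - 1))) (PB 1 k (k - 1)) →
        ((k : ℝ) - 1) / 2 * Real.log (4 * k - 3) ≤ L)) ∧
    (∀ m t l : ℕ, l.Prime → 3 < l → l + t ^ 2 = 2 * 9 ^ (m + 1) → 3 ^ (m + 1) ≤ t →
      3 * t ≤ 4 * 3 ^ (m + 1) →
      (∃ L, Chain L (PA t (2 * 9 ^ (m + 1))) (PB t 2 (9 ^ (m + 1)))) ∧
        ∀ L, Lag L (PA t (2 * 9 ^ (m + 1))) (PB t 2 (9 ^ (m + 1))) → 3 ^ m ≤ L) ∧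
    (∃ L, Chain L (PA 10460354423 218837978263024718418)
      (PB 10460354423 2 109418989131512359209)) ∧
    (∀ L, Chain L (PA 10460354423 218837978263024718418)
      (PB 10460354423 2 109418989131512359209) → 3486784401 ≤ L) := by
  have hex := family 20 10460354423 109418963608249055489 prime_l (by norm_num) (by norm_num)
    (by norm_num) (by norm_num)
  have e1 : 2 * 9 ^ (20 + 1) = 218837978263024718418 := by norm_num
  have e2 : 9 ^ (20 + 1) = 109418989131512359209 := by norm_num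
  have e3 : 3 ^ 20 = 3486784401 := by norm_num
  rw [e1, e2, e3] at hex
  refine ⟨fun t b c l L hb hc hl hn h2 => ⟨lag_bound t b c l hb hc hl hn h2 L, ?_⟩,
    fun L X Y h => lag_of_chain h,
    fun k L hk hp => ⟨baker_iff k L hk hp, fun h => baker k L hk hp h⟩,
    fun m t l hl h3 hn h1 h2 => family m t l hl h3 hn h1 h2, hex.1,
    fun L h => hex.2 L (lag_of_chain h)⟩
  rintro ⟨w, z, h1, h3⟩
  exact lag_exists t b c hb hc (by have := hl.pos; omega) L w z h1 h3

end Pool.Agent.Results.MP_993212_an.ChainLength
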