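import Pool.Agent.Q133.SS.Region

set_option autoImplicit false

namespace Pool.Agent.Results.MP_993212_an.SimilarQuarter

open Matrix

/-- Elementary equivalence of square matrices over `ℕ`: `A = R S`, `B = S R` for rectangular
matrices `R`, `S` over `ℕ`. -/
def Elem (X Y : Σ n : ℕ, Matrix (Fin n) (Fin n) ℕ) : Prop :=
  ∃ (R : Matrix (Fin X.1) (Fin Y.1) ℕ) (S : Matrix (Fin Y.1) (Fin X.1) ℕ),
    X.2 = R * S ∧ Y.2 = S * R

/-- Strong shift equivalence over `ℕ` (a finite chain of elementary equivalences). -/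
def SSE {n m : ℕ} (A : Matrix (Fin n) (Fin n) ℕ) (B : Matrix (Fin m) (Fin m) ℕ) : Prop :=
  Relation.TransGen Elem ⟨n, A⟩ ⟨m, B⟩

/-- Two by two matrices over the nonnegative integers with `-tr² / 4 ≤ det < 0` which are similar
over the integers are strong shift equivalent over the nonnegative integers. -/
theorem result (A B : Matrix (Fin 2) (Fin 2) ℕ) (U : Matrix (Fin 2) (Fin 2) ℤ)
    (hU : IsUnit U.det)
    (hAB : A.map (fun x : ℕ => (x : ℤ)) * U = U * B.map (fun x : ℕ => (x : ℤ)))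
    (hneg : (A.map (fun x : ℕ => (x : ℤ))).det < 0)
    (hquad : -4 * (A.map (fun x : ℕ => (x : ℤ))).det ≤
      (A.map (fun x : ℕ => (x : ℤ))).trace ^ 2) :
    SSE A B := by
  have hdetB : (B.map (fun x : ℕ => (x : ℤ))).det = (A.map (fun x : ℕ => (x : ℤ))).det := by
    have h := congrArg Matrix.det hAB
    rw [Matrix.det_mul, Matrix.det_mul, mul_comm] at h
    exact (mul_left_cancel₀ hU.ne_zero h).symm
  have hA := hneg
  have hB := hneg
  rw [← hdetB] at hB
  rw [Matrix.det_fin_two] at hA hB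
  simp only [Matrix.map_apply] at hA hB
  have hA' : A 0 0 * A 1 1 < A 0 1 * A 1 0 := by
    have : (A 0 0 : ℤ) * A 1 1 < A 0 1 * A 1 0 := by linarith
    exact_mod_cast this
  have hB' : B 0 0 * B 1 1 < B 0 1 * B 1 0 := by
    have : (B 0 0 : ℤ) * B 1 1 < B 0 1 * B 1 0 := by linarith
    exact_mod_cast this
  rw [Matrix.det_fin_two, Matrix.trace_fin_two] at hquad
  simp only [Matrix.map_apply] at hquad
  have hq : 4 * (A 0 1 * A 1 0) ≤ 4 * (A 0 0 * A 1 1) + (A 0 0 + A 1 1) ^ 2 := by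
    have : 4 * ((A 0 1 : ℤ) * A 1 0) ≤ 4 * (A 0 0 * A 1 1) + (A 0 0 + A 1 1) ^ 2 := by
      linarith
    exact_mod_cast this
  refine Pool.Agent.Q133.SS.region_nat A B ?_ ?_ ?_ ?_ hA' hq U hU hAB
  · rcases Nat.eq_zero_or_pos (A 0 1) with h | h
    · rw [h] at hA'; omega
    · exact h
  · rcases Nat.eq_zero_or_pos (A 1 0) with h | h
    · rw [h] at hA'; omega
    · exact h
  · rcases Nat.eq_zero_or_pos (B 0 1) with h | h
    · rw [h] at hB'; omega
    · exact h
  · rcases Nat.eq_zero_or_pos (B 1 0) with h | h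
    · rw [h] at hB'; omega
    · exact h

end Pool.Agent.Results.MP_993212_an.SimilarQuarter
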