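import Pool.Agent.Q126.SE.Irr

set_option autoImplicit false

namespace Pool.Agent.Results.MP_993212_an.SparseGraphs

open Pool.Agent.Q126.SE

/-- Decidability of strong shift equivalence, for all matrices and for irreducible ones, is
equivalent to its decidability for the matrices of directed graphs without parallel edges, with
in-degree plus out-degree at most three, without short closed walks and with growth rate close
to one. -/
theorem result (g : ℕ) :
    (ComputablePred (fun p : List (List ℕ) × List (List ℕ) =>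
      Relation.TransGen
        (fun X Y : (Σ n : ℕ, Matrix (Fin n) (Fin n) ℕ) =>
          ∃ R : Matrix (Fin X.1) (Fin Y.1) ℕ, ∃ S : Matrix (Fin Y.1) (Fin X.1) ℕ,
            X.2 = R * S ∧ Y.2 = S * R)
        ⟨p.1.length, Matrix.of (fun i j => (p.1.getD (i : ℕ) []).getD (j : ℕ) 0)⟩
        ⟨p.2.length, Matrix.of (fun i j => (p.2.getD (i : ℕ) []).getD (j : ℕ) 0)⟩) ↔
      ∃ D : List (List ℕ) × List (List ℕ) → Prop, ComputablePred D ∧
        ∀ p, Sparse g (mat p.1) → Sparse g (mat p.2) → (D p ↔ SSE (mat p.1) (mat p.2))) ∧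
    ((∃ D : List (List ℕ) × List (List ℕ) → Prop, ComputablePred D ∧
        ∀ p, Irr (mat p.1) → Irr (mat p.2) → (D p ↔ SSE (mat p.1) (mat p.2))) ↔
      ∃ D : List (List ℕ) × List (List ℕ) → Prop, ComputablePred D ∧
        ∀ p, Irr (mat p.1) → Irr (mat p.2) → Sparse g (mat p.1) → Sparse g (mat p.2) →
          (D p ↔ SSE (mat p.1) (mat p.2))) :=
  ⟨reduction g, reduction_irr g⟩

end Pool.Agent.Results.MP_993212_an.SparseGraphs
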